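import Pool.Agent.N290.RL.Stm

/-!
# Project RL (helper290), leaf YP: estimates of `λ_j` and `p_j` (helper300)
-/

set_option autoImplicit false

open Complex MeasureTheory Set Filter Topology
open scoped ENNReal

namespace Pool.Agent.N300.RL

open Pool.Agent.N290.RJ Pool.Agent.N290.RK Pool.Agent.N290.RL

variable {d : ℕ}

theorem real_lin (T : ℂ →L[ℝ] ℝ) (ζ : ℂ) : T ζ = ζ.re * T 1 + ζ.im * T I := by
  have h : ζ = ζ.re • (1 : ℂ) + ζ.im • I := by
    apply Complex.ext <;> simp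
  conv_lhs => rw [h]
  rw [map_add, map_smul, map_smul, smul_eq_mul, smul_eq_mul]

theorem xj_I (f : E d → ℂ) (j : ℕ) (z ξ : E d) : xj f j z (I • ξ) = I * xj f j z ξ := by
  unfold xj
  rw [smul_comm, map_smul, smul_eq_mul]

theorem lam_pos (φ : ℂ → ℝ) (w : ℂ) {a : ℝ} (ha : 0 < a) : 0 < lam φ w a := by
  unfold lam
  positivity

theorem lam_pp (φ : ℂ → ℝ) (w : ℂ) {a : ℝ} (ha : 0 < a) (x : ℂ) :
    (lam φ w a : ℂ) * starRingEnd ℂ (pp φ w a * x) =
      2 * (φ w : ℂ) * starRingEnd ℂ (dw φ w) * starRingEnd ℂ x := by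
  have h : (lam φ w a : ℂ) ≠ 0 := by
    exact_mod_cast (lam_pos φ w ha).ne'
  unfold pp
  rw [map_mul, map_div₀, map_mul, map_mul, Complex.conj_ofReal, Complex.conj_ofReal, map_ofNat]
  field_simp

/-- the algebraic identity behind the estimate of `∂̄ λ_j` -/
theorem db_id (T : ℂ →L[ℝ] ℝ) (p a x1 x2 : ℝ) (x : ℂ) :
    (((2 * p * T x + 2 * a * x1 : ℝ) : ℂ) + I * ((2 * p * T (I * x) + 2 * a * x2 : ℝ) : ℂ)) / 2 -
      2 * (p : ℂ) * starRingEnd ℂ (((T 1 : ℝ) - I * (T I : ℝ)) / 2) * starRingEnd ℂ x =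
      (a : ℂ) * ((x1 : ℂ) + I * (x2 : ℂ)) := by
  have hc : starRingEnd ℂ (((T 1 : ℝ) - I * (T I : ℝ)) / 2) = ((T 1 : ℝ) + I * (T I : ℝ)) / 2 := by
    rw [map_div₀, map_sub, map_mul, Complex.conj_I, Complex.conj_ofReal, Complex.conj_ofReal,
      map_ofNat]
    ring
  have hx : starRingEnd ℂ x = (x.re : ℂ) - I * (x.im : ℂ) := by
    apply Complex.ext <;> simp
  have hre : (I * x).re = -x.im := by simp
  have him : (I * x).im = x.re := by simp
  rw [real_lin T x, real_lin T (I * x), hc, hx, hre, him]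
  push_cast
  linear_combination ((p : ℂ) * (T I : ℝ) * (x.im : ℂ)) * Complex.I_sq

/-- the ratio of two values of `lam` with the same or different weights -/
theorem ratio (h3 : R3a) {φ : ℂ → ℝ} {L A s al al' b : ℝ} (h1 : ContDiff ℝ 2 φ) (hL : 1 ≤ L)
    (hA : 1024 * L ≤ A) (h2 : ∀ w, 0 ≤ φ w ∧ φ w ≤ 1) (h4 : ∀ w, ‖fderiv ℝ φ w‖ ≤ L)
    (h5 : ∀ w, ‖fderiv ℝ (fderiv ℝ φ) w‖ ≤ L) (hs : 0 ≤ s) (hs1 : s ≤ 1) (w w' : ℂ)
    (hb : 0 < b) (hal : al = A * b) (ha' : 0 < al') (hle : al' ≤ (1 + s / 256) * al)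
    (hw : ‖w' - w‖ ≤ 2 * b * s) : lam φ w' al' ≤ (1 + s / 64) * lam φ w al := by
  have hL0 : 0 < L := by linarith
  have hA0 : 0 < A := by linarith
  have ha : 0 < al := by rw [hal]; positivity
  obtain ⟨-, -, r3, -, -, -⟩ := h3 φ L h1 hL0 h2 h4 h5
  have hq : L * ‖w' - w‖ / al ≤ s / 512 := by
    rw [div_le_iff₀ ha, hal]
    have k1 : L * ‖w' - w‖ ≤ L * (2 * b * s) := mul_le_mul_of_nonneg_left hw hL0.le
    have k2 : 0 ≤ b * s := mul_nonneg hb.le hs
    nlinarith [mul_le_mul_of_nonneg_right hA k2]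
  have hq0 : 0 ≤ L * ‖w' - w‖ / al := by positivity
  rcases le_or_gt al' al with hc | hc
  · have k1 := r3 w w' al al' ha' hc
    have k4 : (1 + L * ‖w' - w‖ / al) ^ 2 ≤ 1 + s / 64 := by
      generalize L * ‖w' - w‖ / al = q at hq hq0
      nlinarith
    refine k1.trans ?_
    rw [mul_comm]
    exact mul_le_mul_of_nonneg_right k4 (lam_pos φ _ ha).le
  · have k1 := r3 w w' al al ha le_rfl
    have k2 : lam φ w' al' ≤ (1 + s / 256) ^ 2 * lam φ w' al := by
      unfold lam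
      have e1 : al' ^ 2 ≤ ((1 + s / 256) * al) ^ 2 := pow_le_pow_left₀ ha'.le hle 2
      have e2 : φ w' ^ 2 ≤ (1 + s / 256) ^ 2 * φ w' ^ 2 := by
        refine le_mul_of_one_le_left (sq_nonneg _) ?_
        nlinarith
      nlinarith
    have k4 : (1 + s / 256) ^ 2 * (1 + L * ‖w' - w‖ / al) ^ 2 ≤ 1 + s / 64 := by
      generalize L * ‖w' - w‖ / al = q at hq hq0
      have e1 : (1 + s / 256) * (1 + q) ≤ 1 + s * (4 / 512) - s / 1024 := by nlinarith
      have e2 : 0 ≤ (1 + s / 256) * (1 + q) := by positivity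
      have e3 : ((1 + s / 256) * (1 + q)) ^ 2 ≤ (1 + s * (4 / 512) - s / 1024) ^ 2 :=
        pow_le_pow_left₀ e2 e1 2
      have e4 : (1 + s * (4 / 512) - s / 1024) ^ 2 ≤ 1 + s / 64 := by nlinarith
      calc _ = ((1 + s / 256) * (1 + q)) ^ 2 := by ring
        _ ≤ _ := e3.trans e4
    calc lam φ w' al' ≤ (1 + s / 256) ^ 2 * lam φ w' al := k2
      _ ≤ (1 + s / 256) ^ 2 * (lam φ w al * (1 + L * ‖w' - w‖ / al) ^ 2) :=
          mul_le_mul_of_nonneg_left k1 (sq_nonneg _)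
      _ = ((1 + s / 256) ^ 2 * (1 + L * ‖w' - w‖ / al) ^ 2) * lam φ w al := by ring
      _ ≤ _ := mul_le_mul_of_nonneg_right k4 (lam_pos φ _ ha).le

theorem YP_of (d : ℕ) (h3 : R3a) (hN : YN d) (hA : YA d) (hF : YF d) : YP d := by
  intro A L
  refine ⟨1 + A ^ 2 + |40 * (1 + L) ^ 2 * (2 + A)| + |4 * L + 2 * A ^ 2| +
    |20 * (1 + L) ^ 2 * (3 / 2 + 2 * A)| + 4 * A ^ 2, by positivity, ?_⟩
  intro ε₂ φ χ a f D j
  have hL0 : 0 < L := by
    have h2 := D.hL
    linarith
  have hA1 : 1 ≤ A := by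
    have h1 := D.hA
    have h2 := D.hL
    linarith
  have hA0 : 0 < A := by linarith
  obtain ⟨-, r2, r3, -, r5, r6⟩ := h3 φ L D.φ1 hL0 D.φ2 D.φ3 D.φ4
  have hXA := fun i => hA A a hA1 D.aw i
  have hfd : ContDiffOn ℝ 1 (fun w : E d => f (rad j • w)) (B d) :=
    cd_dil (cd_hol D.f1) (rad_nonneg j) (rad_lt_one j).le
  have hq : ContDiffOn ℝ 1 (fun w : E d => (f (rad j • w), al A a j w)) (B d) :=
    hfd.prodMk (hXA j).1
  have hpj : ContDiffOn ℝ 1 (pj φ A a f j) (B d) :=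
    r2.comp (g := fun q : ℂ × ℝ => pp φ q.1 q.2)
      (f := fun w : E d => (f (rad j • w), al A a j w)) hq fun w hw => ((hXA j).2 w hw).1
  have hφd : ContDiffOn ℝ 1 (fun w : E d => φ (f (rad j • w))) (B d) :=
    (D.φ1.of_le one_le_two).comp_contDiffOn hfd
  have hlj : ContDiffOn ℝ 1 (lj φ A a f j) (B d) := (hφd.pow 2).add ((hXA j).1.pow 2)
  refine ⟨hpj, hlj, fun z hz => ?_⟩
  obtain ⟨a1, a2, a3, a4, a5, a6, a7, a8⟩ := (hXA j).2 z hz
  obtain ⟨b1, b2, -⟩ := (hXA (j + 1)).2 z hz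
  obtain ⟨s0, s1, u0, u1, -⟩ := hN z hz j
  obtain ⟨f1, f2, f2', f3⟩ := hF a f D.aw D.f1 D.f3 j z hz
  have haz : 0 < a z := (D.aw.a2 z hz).1
  have haz' : 0 < a (rad j • z) :=
    (D.aw.a2 _ (smul_mem_B hz (rad_nonneg j) (rad_lt_one j).le)).1
  have hB := B_open.mem_nhds hz
  have hw : 0 ≤ a z / ww z j * st j z := by positivity
  -- the ratio of `λ`
  have hlr : lj φ A a f (j + 1) z ≤ (1 + st j z / 64) * lj φ A a f j z :=
    ratio h3 D.φ1 D.hL D.hA D.φ2 D.φ3 D.φ4 s0 s1 _ _ haz' rfl b1 a5 f1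
  have hl0 : 0 < lj φ A a f j z := lam_pos φ _ a1
  have hl0' : 0 < lj φ A a f (j + 1) z := lam_pos φ _ b1
  have hl2 : lj φ A a f (j + 1) z ≤ 2 * lj φ A a f j z := by
    refine hlr.trans (mul_le_mul_of_nonneg_right ?_ hl0.le)
    linarith
  have hl1 : lj φ A a f j z ≤ 1 + A ^ 2 := by
    have k1 := D.φ2 (f (rad j • z))
    have k2 : φ (f (rad j • z)) ^ 2 ≤ 1 := pow_le_one₀ k1.1 k1.2
    have k3 : al A a j z ^ 2 ≤ A ^ 2 := pow_le_pow_left₀ a1.le a2 2
    show φ (f (rad j • z)) ^ 2 + al A a j z ^ 2 ≤ _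
    linarith
  have c1 := abs_nonneg (40 * (1 + L) ^ 2 * (2 + A))
  have c2 := abs_nonneg (4 * L + 2 * A ^ 2)
  have c3 := abs_nonneg (20 * (1 + L) ^ 2 * (3 / 2 + 2 * A))
  have c4 : 0 ≤ A ^ 2 := sq_nonneg _
  have l1 := le_abs_self (40 * (1 + L) ^ 2 * (2 + A))
  have l2 := le_abs_self (4 * L + 2 * A ^ 2)
  have l3 := le_abs_self (20 * (1 + L) ^ 2 * (3 / 2 + 2 * A))
  refine ⟨hl0, by linarith, hlr, ?_, ?_, fun ξ => ⟨?_, ?_⟩⟩
  · -- the difference of `λ`
    have k0 : ‖φ (f (rad (j + 1) • z)) - φ (f (rad j • z))‖ ≤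
        L * ‖f (rad (j + 1) • z) - f (rad j • z)‖ :=
      Convex.norm_image_sub_le_of_norm_fderiv_le (𝕜 := ℝ) (s := univ)
        (fun x _ => D.φ1.differentiable two_ne_zero x) (fun x _ => D.φ3 x) convex_univ
        (mem_univ _) (mem_univ _)
    rw [Real.norm_eq_abs] at k0
    have k1 := D.φ2 (f (rad j • z))
    have k1' := D.φ2 (f (rad (j + 1) • z))
    have k2 : |φ (f (rad (j + 1) • z)) ^ 2 - φ (f (rad j • z)) ^ 2| ≤
        2 * (L * ‖f (rad (j + 1) • z) - f (rad j • z)‖) := by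
      have e : φ (f (rad (j + 1) • z)) ^ 2 - φ (f (rad j • z)) ^ 2 =
          (φ (f (rad (j + 1) • z)) + φ (f (rad j • z))) *
            (φ (f (rad (j + 1) • z)) - φ (f (rad j • z))) := by ring
      rw [e, abs_mul]
      refine mul_le_mul ?_ k0 (abs_nonneg _) (by norm_num)
      rw [abs_of_nonneg (by linarith)]
      linarith
    have k3 : |al A a (j + 1) z ^ 2 - al A a j z ^ 2| ≤
        2 * A * (A * (a z / ww z j) * st j z) := by
      have e : al A a (j + 1) z ^ 2 - al A a j z ^ 2 =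
          (al A a (j + 1) z + al A a j z) * (al A a (j + 1) z - al A a j z) := by ring
      rw [e, abs_mul]
      refine mul_le_mul ?_ a7 (abs_nonneg _) (by positivity)
      rw [abs_of_nonneg (by linarith)]
      linarith
    have k4 : |lj φ A a f (j + 1) z - lj φ A a f j z| ≤
        |φ (f (rad (j + 1) • z)) ^ 2 - φ (f (rad j • z)) ^ 2| +
          |al A a (j + 1) z ^ 2 - al A a j z ^ 2| := by
      have e : lj φ A a f (j + 1) z - lj φ A a f j z =
          (φ (f (rad (j + 1) • z)) ^ 2 - φ (f (rad j • z)) ^ 2) +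
            (al A a (j + 1) z ^ 2 - al A a j z ^ 2) := by
        show (φ (f (rad (j + 1) • z)) ^ 2 + al A a (j + 1) z ^ 2) -
          (φ (f (rad j • z)) ^ 2 + al A a j z ^ 2) = _
        ring
      rw [e]
      exact abs_add_le _ _
    have k5 : L * ‖f (rad (j + 1) • z) - f (rad j • z)‖ ≤ L * (2 * (a z / ww z j) * st j z) :=
      mul_le_mul_of_nonneg_left f2 hL0.le
    have k6 : |lj φ A a f (j + 1) z - lj φ A a f j z| ≤
        (4 * L + 2 * A ^ 2) * (a z / ww z j * st j z) := by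
      have e : 2 * (L * (2 * (a z / ww z j) * st j z)) + 2 * A * (A * (a z / ww z j) * st j z) =
        (4 * L + 2 * A ^ 2) * (a z / ww z j * st j z) := by ring
      linarith
    refine k6.trans ?_
    rw [mul_assoc (1 + _ + _ + _ + _ + _)]
    refine mul_le_mul_of_nonneg_right ?_ hw
    linarith
  · -- the difference of `p`
    have hΔ : ‖f (rad (j + 1) • z) - f (rad j • z)‖ + |al A a (j + 1) z - al A a j z| ≤
        (2 + A) * (a z / ww z j * st j z) := by
      have e : 2 * (a z / ww z j) * st j z + A * (a z / ww z j) * st j z =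
        (2 + A) * (a z / ww z j * st j z) := by ring
      linarith
    have key : lj φ A a f (j + 1) z * ‖pj φ A a f (j + 1) z - pj φ A a f j z‖ ≤
        40 * (1 + L) ^ 2 * (‖f (rad (j + 1) • z) - f (rad j • z)‖ +
          |al A a (j + 1) z - al A a j z|) := by
      rcases le_or_gt (al A a (j + 1) z) (al A a j z) with hc | hc
      · have h1 := r5 (f (rad j • z)) (f (rad (j + 1) • z)) (al A a j z) (al A a (j + 1) z) b1 hc
          hl2
        rw [abs_of_nonpos (by linarith)]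
        have h2 : 0 ≤ (1 + L) ^ 2 * (‖f (rad (j + 1) • z) - f (rad j • z)‖ +
            (al A a j z - al A a (j + 1) z)) :=
          mul_nonneg (sq_nonneg _) (add_nonneg (norm_nonneg _) (by linarith))
        refine h1.trans ?_
        have e : 20 * (1 + L) ^ 2 * (‖f (rad (j + 1) • z) - f (rad j • z)‖ +
            (al A a j z - al A a (j + 1) z)) = 20 * ((1 + L) ^ 2 *
            (‖f (rad (j + 1) • z) - f (rad j • z)‖ + (al A a j z - al A a (j + 1) z))) := by ring
        have e' : 40 * (1 + L) ^ 2 * (‖f (rad (j + 1) • z) - f (rad j • z)‖ +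
            -(al A a (j + 1) z - al A a j z)) = 40 * ((1 + L) ^ 2 *
            (‖f (rad (j + 1) • z) - f (rad j • z)‖ + (al A a j z - al A a (j + 1) z))) := by ring
        rw [e, e']
        linarith
      · have g1 : L * ‖f (rad j • z) - f (rad (j + 1) • z)‖ / al A a (j + 1) z ≤ 1 / 512 := by
          rw [div_le_iff₀ b1, norm_sub_rev]
          have k1 : L * ‖f (rad (j + 1) • z) - f (rad j • z)‖ ≤
              L * (2 * a (rad j • z) * st j z) := mul_le_mul_of_nonneg_left f1 hL0.le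
          have k2 : al A a j z = A * a (rad j • z) := rfl
          have k3 : L * (2 * a (rad j • z) * st j z) ≤ L * (2 * a (rad j • z) * 1) := by gcongr
          have k4 := mul_le_mul_of_nonneg_right D.hA haz'.le
          rw [k2] at hc
          linarith
        have g0 : 0 ≤ L * ‖f (rad j • z) - f (rad (j + 1) • z)‖ / al A a (j + 1) z := by
          positivity
        have g2 := r3 (f (rad (j + 1) • z)) (f (rad j • z)) (al A a (j + 1) z) (al A a j z) a1 hc.le
        have g3 : lj φ A a f j z ≤ 2 * lj φ A a f (j + 1) z := by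
          refine g2.trans ?_
          rw [mul_comm]
          refine mul_le_mul_of_nonneg_right ?_ hl0'.le
          generalize L * ‖f (rad j • z) - f (rad (j + 1) • z)‖ / al A a (j + 1) z = q at g0 g1
          nlinarith
        have h1 := r5 (f (rad (j + 1) • z)) (f (rad j • z)) (al A a (j + 1) z) (al A a j z) a1
          hc.le g3
        rw [norm_sub_rev (f (rad j • z))] at h1
        change lj φ A a f j z * ‖pj φ A a f j z - pj φ A a f (j + 1) z‖ ≤ _ at h1
        rw [norm_sub_rev (pj φ A a f j z)] at h1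
        rw [abs_of_pos (by linarith)]
        have h2 : lj φ A a f (j + 1) z * ‖pj φ A a f (j + 1) z - pj φ A a f j z‖ ≤
            2 * lj φ A a f j z * ‖pj φ A a f (j + 1) z - pj φ A a f j z‖ :=
          mul_le_mul_of_nonneg_right hl2 (norm_nonneg _)
        linarith
    have h4 : 40 * (1 + L) ^ 2 * (‖f (rad (j + 1) • z) - f (rad j • z)‖ +
        |al A a (j + 1) z - al A a j z|) ≤
        40 * (1 + L) ^ 2 * ((2 + A) * (a z / ww z j * st j z)) :=
      mul_le_mul_of_nonneg_left hΔ (by positivity)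
    refine (key.trans h4).trans ?_
    rw [← mul_assoc (40 * (1 + L) ^ 2), mul_assoc (1 + _ + _ + _ + _ + _)]
    refine mul_le_mul_of_nonneg_right ?_ hw
    linarith
  · -- the derivative of `p`
    obtain ⟨x1, x2, -, -⟩ := f3 ξ
    have hDf : HasFDerivAt (fun w : E d => f (rad j • w))
        (fderiv ℝ (fun w : E d => f (rad j • w)) z) z :=
      ((hfd.contDiffAt hB).differentiableAt one_ne_zero).hasFDerivAt
    have hDa : HasFDerivAt (al A a j) (fderiv ℝ (al A a j) z) z :=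
      (((hXA j).1.contDiffAt hB).differentiableAt one_ne_zero).hasFDerivAt
    have hopen : IsOpen {q : ℂ × ℝ | 0 < q.2} := isOpen_lt continuous_const continuous_snd
    have hpp : HasFDerivAt (fun q : ℂ × ℝ => pp φ q.1 q.2)
        (fderiv ℝ (fun q : ℂ × ℝ => pp φ q.1 q.2) (f (rad j • z), al A a j z))
        (f (rad j • z), al A a j z) :=
      ((r2.contDiffAt (hopen.mem_nhds a1)).differentiableAt one_ne_zero).hasFDerivAt
    have hcomp : HasFDerivAt (pj φ A a f j) _ z :=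
      HasFDerivAt.comp z (g := fun q : ℂ × ℝ => pp φ q.1 q.2)
        (f := fun w : E d => (f (rad j • w), al A a j w)) hpp (hDf.prodMk hDa)
    have h1 : fderiv ℝ (pj φ A a f j) z ξ =
        fderiv ℝ (fun q : ℂ × ℝ => pp φ q.1 q.2) (f (rad j • z), al A a j z)
          (xj f j z ξ, fderiv ℝ (al A a j) z ξ) := by
      rw [hcomp.fderiv, ← x2]
      rfl
    rw [h1]
    refine (r6 (f (rad j • z)) (al A a j z) a1 _ _).trans ?_
    have hl := len_nonneg z ξ
    have h2 : ‖xj f j z ξ‖ + |fderiv ℝ (al A a j) z ξ| ≤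
        (3 / 2 + 2 * A) * (a z * ww z j ^ 7 * len z ξ) := by
      have h5 := a8 ξ
      have h6 : 3 / 2 * a z * ww z j ^ 7 * len z ξ + 2 * A * a z * ww z j ^ 7 * len z ξ =
          (3 / 2 + 2 * A) * (a z * ww z j ^ 7 * len z ξ) := by ring
      linarith
    have h4 : 20 * (1 + L) ^ 2 * (‖xj f j z ξ‖ + |fderiv ℝ (al A a j) z ξ|) ≤
        20 * (1 + L) ^ 2 * ((3 / 2 + 2 * A) * (a z * ww z j ^ 7 * len z ξ)) :=
      mul_le_mul_of_nonneg_left h2 (by positivity)
    refine h4.trans ?_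
    have hw : 0 ≤ a z * ww z j ^ 7 * len z ξ := by positivity
    rw [← mul_assoc (20 * (1 + L) ^ 2), mul_assoc (1 + _ + _ + _ + _ + _),
      mul_assoc (1 + _ + _ + _ + _ + _)]
    refine mul_le_mul_of_nonneg_right ?_ hw
    linarith
  · -- the `∂̄`-derivative of `λ`
    have hDf : HasFDerivAt (fun w : E d => f (rad j • w))
        (fderiv ℝ (fun w : E d => f (rad j • w)) z) z :=
      ((hfd.contDiffAt hB).differentiableAt one_ne_zero).hasFDerivAt
    have hDa : HasFDerivAt (al A a j) (fderiv ℝ (al A a j) z) z :=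
      (((hXA j).1.contDiffAt hB).differentiableAt one_ne_zero).hasFDerivAt
    have hDφ : HasFDerivAt φ (fderiv ℝ φ (f (rad j • z))) (f (rad j • z)) :=
      (D.φ1.differentiable two_ne_zero _).hasFDerivAt
    have hc := HasFDerivAt.comp z (g := φ) (f := fun w : E d => f (rad j • w)) hDφ hDf
    have hl := (hc.pow 2).add (hDa.pow 2)
    have hlr : HasFDerivAt (lj φ A a f j) _ z := hl
    have hlc := (Complex.ofRealCLM.hasFDerivAt (x := lj φ A a f j z)).comp z hlr
    have hval : ∀ η : E d, fderiv ℝ (fun w : E d => (lj φ A a f j w : ℂ)) z η =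
        ((2 * φ (f (rad j • z)) * fderiv ℝ φ (f (rad j • z)) (xj f j z η) +
          2 * al A a j z * fderiv ℝ (al A a j) z η : ℝ) : ℂ) := by
      intro η
      obtain ⟨-, x2, -, -⟩ := f3 η
      have h1 : fderiv ℝ (fun w : E d => (lj φ A a f j w : ℂ)) z = _ := hlc.fderiv
      rw [h1, ← x2]
      simp
    have hdb : db (fun w : E d => (lj φ A a f j w : ℂ)) z ξ -
        (lj φ A a f j z : ℂ) * starRingEnd ℂ (pj φ A a f j z * xj f j z ξ) =
        (al A a j z : ℂ) * ((fderiv ℝ (al A a j) z ξ : ℂ) +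
          I * (fderiv ℝ (al A a j) z (I • ξ) : ℂ)) := by
      have h1 : (lj φ A a f j z : ℂ) * starRingEnd ℂ (pj φ A a f j z * xj f j z ξ) = _ :=
        lam_pp φ (f (rad j • z)) a1 (xj f j z ξ)
      rw [h1, db, hval, hval, xj_I]
      exact db_id (fderiv ℝ φ (f (rad j • z))) (φ (f (rad j • z))) (al A a j z) _ _ (xj f j z ξ)
    rw [hdb, norm_mul, Complex.norm_real, Real.norm_eq_abs, abs_of_pos a1]
    have h1 := a8 ξ
    have h2 := a8 (I • ξ)
    rw [len_I] at h2
    have hl := len_nonneg z ξ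
    have h4 : ‖((fderiv ℝ (al A a j) z ξ : ℝ) : ℂ) +
        I * ((fderiv ℝ (al A a j) z (I • ξ) : ℝ) : ℂ)‖ ≤
        2 * (2 * A * a z * ww z j ^ 7 * len z ξ) := by
      refine (norm_add_le _ _).trans ?_
      rw [norm_mul, Complex.norm_I, one_mul, Complex.norm_real, Complex.norm_real,
        Real.norm_eq_abs, Real.norm_eq_abs]
      linarith
    have h5 : al A a j z * ‖((fderiv ℝ (al A a j) z ξ : ℝ) : ℂ) +
        I * ((fderiv ℝ (al A a j) z (I • ξ) : ℝ) : ℂ)‖ ≤
        (A * (a z / ww z j)) * (2 * (2 * A * a z * ww z j ^ 7 * len z ξ)) :=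
      mul_le_mul a4 h4 (norm_nonneg _) (by positivity)
    refine h5.trans ?_
    have h6 : (A * (a z / ww z j)) * (2 * (2 * A * a z * ww z j ^ 7 * len z ξ)) =
        4 * A ^ 2 * (a z ^ 2 * ww z j ^ 6 * len z ξ) := by
      field_simp
      ring
    have hw : 0 ≤ a z ^ 2 * ww z j ^ 6 * len z ξ := by positivity
    rw [h6, mul_assoc (1 + _ + _ + _ + _ + _), mul_assoc (1 + _ + _ + _ + _ + _)]
    refine mul_le_mul_of_nonneg_right ?_ hw
    linarith

end Pool.Agent.N300.RL
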